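import Pool.Agent.Y245.SC.Stm

set_option autoImplicit false

open Complex MeasureTheory Metric Set Filter Topology ComplexConjugate
open scoped Manifold ContDiff

namespace Pool.Agent.Y281.SC

open Pool.Agent.Y245.SC

/-- the real linear map `v ↦ A conj v + B v` -/
noncomputable def L (A B : ℂ) : ℂ →L[ℝ] ℂ :=
  A • (conjCLE : ℂ →L[ℝ] ℂ) + B • ContinuousLinearMap.id ℝ ℂ

theorem L_apply (A B v : ℂ) : L A B v = A * conj v + B * v := by
  simp [L]

theorem hasF (q H : ℂ → ℂ) (y : ℂ) (hq : DifferentiableAt ℂ q (conj y))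
    (hH : DifferentiableAt ℂ H y) :
    HasFDerivAt (𝕜 := ℝ) (fun y => q (conj y) * H y)
      (L (deriv q (conj y) * H y) (q (conj y) * deriv H y)) y := by
  have h1 : HasFDerivAt (𝕜 := ℝ) (fun y => q (conj y))
      ((deriv q (conj y)) • (conjCLE : ℂ →L[ℝ] ℂ)) y := by
    have h := (hq.hasDerivAt.hasFDerivAt.restrictScalars ℝ).comp y
      (conjCLE : ℂ →L[ℝ] ℂ).hasFDerivAt
    refine h.congr_fderiv ?_
    ext v
    simp [mul_comm]
  have h2 : HasFDerivAt (𝕜 := ℝ) H ((deriv H y) • ContinuousLinearMap.id ℝ ℂ) y := by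
    have h := hH.hasDerivAt.hasFDerivAt.restrictScalars ℝ
    refine h.congr_fderiv ?_
    ext v
    simp [mul_comm]
  refine (h1.mul h2).congr_fderiv ?_
  ext v
  simp [L]
  ring

/-- local computation of the Laplacian -/
theorem lap_sum (U : Set ℂ) (hU : IsOpen U) (N : ℕ) (c : ℕ → ℂ) (q : ℕ → ℂ → ℂ) (H : ℕ → ℂ → ℂ)
    (hq : ∀ k, Differentiable ℂ (q k)) (hH : ∀ k, DifferentiableOn ℂ (H k) U) (z : ℂ) (hz : z ∈ U) :
    lap (fun y => ∑ k ∈ Finset.range N, c k * (q k (conj y) * H k y)) z =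
      ∑ k ∈ Finset.range N, 4 * (c k * (deriv (q k) (conj z) * deriv (H k) z)) := by
  have hq' : ∀ k, Differentiable ℂ (deriv (q k)) := fun k => by
    have := (hq k).contDiff (n := 2)
    exact (this.iterate_deriv' 1 1).differentiable one_ne_zero
  have hH' : ∀ k, DifferentiableOn ℂ (deriv (H k)) U := fun k => (hH k).deriv hU
  have hF : ∀ y ∈ U, HasFDerivAt (𝕜 := ℝ)
      (fun y => ∑ k ∈ Finset.range N, c k * (q k (conj y) * H k y))
      (∑ k ∈ Finset.range N, c k • L (deriv (q k) (conj y) * H k y)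
        (q k (conj y) * deriv (H k) y)) y := by
    intro y hy
    refine HasFDerivAt.fun_sum fun k _ => ?_
    exact (hasF (q k) (H k) y (hq k _) ((hH k).differentiableAt (hU.mem_nhds hy))).const_mul (c k)
  have key : ∀ v : ℂ, fderiv ℝ (fun y => fderiv ℝ
      (fun y => ∑ k ∈ Finset.range N, c k * (q k (conj y) * H k y)) y v) z v =
      ∑ k ∈ Finset.range N, c k *
        ((deriv (deriv (q k)) (conj z) * H k z * conj v + deriv (q k) (conj z) * deriv (H k) z * v)
            * conj v +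
          (deriv (q k) (conj z) * deriv (H k) z * conj v + q k (conj z) * deriv (deriv (H k)) z * v)
            * v) := by
    intro v
    have heq : (fun y => fderiv ℝ
        (fun y => ∑ k ∈ Finset.range N, c k * (q k (conj y) * H k y)) y v) =ᶠ[𝓝 z]
        fun y => ∑ k ∈ Finset.range N, c k *
          (deriv (q k) (conj y) * H k y * conj v + q k (conj y) * deriv (H k) y * v) := by
      filter_upwards [hU.mem_nhds hz] with y hy
      rw [(hF y hy).fderiv, ContinuousLinearMap.sum_apply]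
      refine Finset.sum_congr rfl fun k _ => ?_
      rw [ContinuousLinearMap.smul_apply, L_apply, smul_eq_mul]
    rw [heq.fderiv_eq]
    have hG : HasFDerivAt (𝕜 := ℝ) (fun y => ∑ k ∈ Finset.range N, c k *
          (deriv (q k) (conj y) * H k y * conj v + q k (conj y) * deriv (H k) y * v))
        (∑ k ∈ Finset.range N, c k •
          ((conj v) • L (deriv (deriv (q k)) (conj z) * H k z) (deriv (q k) (conj z) * deriv (H k) z) +
            v • L (deriv (q k) (conj z) * deriv (H k) z)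
              (q k (conj z) * deriv (deriv (H k)) z))) z := by
      refine HasFDerivAt.fun_sum fun k _ => ?_
      have a1 := (hasF (deriv (q k)) (H k) z (hq' k _)
        ((hH k).differentiableAt (hU.mem_nhds hz))).mul_const (conj v)
      have a2 := (hasF (q k) (deriv (H k)) z (hq k _)
        ((hH' k).differentiableAt (hU.mem_nhds hz))).mul_const v
      exact (a1.add a2).const_mul (c k)
    rw [hG.fderiv, ContinuousLinearMap.sum_apply]
    refine Finset.sum_congr rfl fun k _ => ?_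
    simp only [ContinuousLinearMap.smul_apply, ContinuousLinearMap.add_apply, L_apply, smul_eq_mul]
    ring
  show fderiv ℝ (fun y => fderiv ℝ _ y 1) z 1 + fderiv ℝ (fun y => fderiv ℝ _ y I) z I = _
  rw [key 1, key I, ← Finset.sum_add_distrib]
  refine Finset.sum_congr rfl fun k _ => ?_
  simp only [map_one, conj_I]
  linear_combination (c k * (deriv (deriv (q k)) (conj z) * H k z
    - 2 * (deriv (q k) (conj z) * deriv (H k) z)
    + q k (conj z) * deriv (deriv (H k)) z)) * I_sq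

theorem vek (hNZ : S_NZ) : S_VEK := by
  intro φ r a h N hr hφ hinj hh hd
  have hsD : ∀ w ∈ ball (0 : ℂ) r, HasStrictDerivAt φ (deriv φ w) w := by
    intro w hw
    exact ((hφ.analyticAt (isOpen_ball.mem_nhds hw)).contDiffAt (n := 1)).hasStrictDerivAt
      one_ne_zero
  have hne : ∀ w ∈ ball (0 : ℂ) r, deriv φ w ≠ 0 := hNZ φ r hφ hinj
  set U := φ '' ball 0 r with hUdef
  have hU : IsOpen U := by
    rw [isOpen_iff_mem_nhds]
    rintro _ ⟨w, hw, rfl⟩
    rw [← (hsD w hw).map_nhds_eq (hne w hw)]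
    exact image_mem_map (isOpen_ball.mem_nhds hw)
  let g : ℂ → ℂ := Function.invFunOn φ (ball 0 r)
  have hg : ∀ w ∈ ball (0 : ℂ) r, g (φ w) = w := fun w hw => by
    exact hinj.leftInvOn_invFunOn hw
  have hgd : ∀ w ∈ ball (0 : ℂ) r, HasDerivAt g (deriv φ w)⁻¹ (φ w) := by
    intro w hw
    refine ((hsD w hw).to_local_left_inverse (hne w hw) ?_).hasDerivAt
    filter_upwards [isOpen_ball.mem_nhds hw] with x hx
    exact hg x hx
  let H : ℕ → ℂ → ℂ := fun k z => h k (g z)
  have hHφ : ∀ k, ∀ w ∈ ball (0 : ℂ) r, H k (φ w) = h k w := by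
    intro k w hw
    show h k (g (φ w)) = h k w
    rw [hg w hw]
  have hHd : ∀ k, ∀ w ∈ ball (0 : ℂ) r, HasDerivAt (H k) (deriv (h k) w * (deriv φ w)⁻¹) (φ w) := by
    intro k w hw
    have h1 : HasDerivAt (h k) (deriv (h k) w) (g (φ w)) := by
      rw [hg w hw]
      exact ((hh k).differentiableAt (isOpen_ball.mem_nhds hw)).hasDerivAt
    exact h1.comp (φ w) (hgd w hw)
  have hHdiff : ∀ k, DifferentiableOn ℂ (H k) U := by
    rintro k _ ⟨w, hw, rfl⟩
    exact (hHd k w hw).differentiableAt.differentiableWithinAt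
  have hHder : ∀ k, ∀ w ∈ ball (0 : ℂ) r, deriv (H (k + 1)) (φ w) = h k w := by
    intro k w hw
    rw [(hHd (k + 1) w hw).deriv, hd k w hw, mul_assoc, mul_inv_cancel₀ (hne w hw), mul_one]
  let c : ℕ → ℂ := fun k => (-(a : ℂ)) ^ k / (k.factorial : ℂ)
  let V0 : ℂ → ℂ := fun z => ∑ k ∈ Finset.range (N + 1), c k * ((conj z) ^ k * H k z)
  have hV0 : ∀ z ∈ U, ContDiffAt ℝ 2 V0 z := by
    intro z hz
    refine ContDiffAt.sum fun k _ => ?_
    have h1 : ContDiffAt ℝ 2 (fun z : ℂ => (conj z) ^ k) z := by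
      have : ContDiff ℝ 2 (fun z : ℂ => (conj z) ^ k) :=
        (conjCLE : ℂ →L[ℝ] ℂ).contDiff.pow k
      exact this.contDiffAt
    have h2 : ContDiffAt ℝ 2 (H k) z :=
      (((hHdiff k).analyticAt (hU.mem_nhds hz)).contDiffAt (n := 2)).restrict_scalars ℝ
    exact contDiffAt_const.mul (h1.mul h2)
  -- the cutoff
  set K := φ '' closedBall 0 1 with hK
  have hsub : closedBall (0 : ℂ) 1 ⊆ ball 0 r := closedBall_subset_ball hr
  have hKc : IsCompact K := (isCompact_closedBall 0 1).image_of_continuousOn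
    (hφ.continuousOn.mono hsub)
  have hKU : K ⊆ U := image_mono hsub
  obtain ⟨t, htc, hKt, htU⟩ := exists_compact_between hKc hU hKU
  obtain ⟨f, hf1, hf0, -⟩ := exists_contMDiffMap_one_nhds_of_subset_interior (n := 2)
    (I := 𝓘(ℝ, ℂ)) hKc.isClosed hKt
  have hfs : ContDiff ℝ 2 (f : ℂ → ℝ) := f.contMDiff.contDiff
  let V : ℂ → ℂ := fun z => (f z : ℂ) * V0 z
  have hVV0 : ∀ w ∈ ball (0 : ℂ) 1, V =ᶠ[𝓝 (φ w)] V0 := by
    intro w hw
    have h1 : ∀ᶠ x in 𝓝 (φ w), f x = 1 := by
      have : 𝓝 (φ w) ≤ 𝓝ˢ K := nhds_le_nhdsSet (mem_image_of_mem _ (ball_subset_closedBall hw))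
      exact this hf1
    filter_upwards [h1] with x hx
    show (f x : ℂ) * V0 x = V0 x
    rw [hx]
    simp
  refine ⟨V, ?_, ?_, ?_⟩
  · rw [contDiff_iff_contDiffAt]
    intro z
    by_cases hz : z ∈ U
    · have h1 : ContDiffAt ℝ 2 (fun z => (f z : ℂ)) z :=
        (ofRealCLM.contDiff.comp hfs).contDiffAt
      exact h1.mul (hV0 z hz)
    · have hzt : z ∈ tᶜ := fun h => hz (htU h)
      have h1 : V =ᶠ[𝓝 z] fun _ => 0 := by
        filter_upwards [htc.isClosed.isOpen_compl.mem_nhds hzt] with x hx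
        show (f x : ℂ) * V0 x = 0
        rw [hf0 x hx]
        simp
      exact contDiffAt_const.congr_of_eventuallyEq h1
  · intro w hw
    have hwr : w ∈ ball (0 : ℂ) r := hsub (ball_subset_closedBall hw)
    rw [(hVV0 w hw).eq_of_nhds]
    refine Finset.sum_congr rfl fun k _ => ?_
    rw [hHφ k w hwr]
    show c k * _ = _
    ring
  · intro w hw
    have hwr : w ∈ ball (0 : ℂ) r := hsub (ball_subset_closedBall hw)
    have hlap : lap V (φ w) = lap V0 (φ w) := by
      have e := (hVV0 w hw).fderiv (𝕜 := ℝ)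
      have e1 : (fun y => fderiv ℝ V y 1) =ᶠ[𝓝 (φ w)] fun y => fderiv ℝ V0 y 1 := by
        filter_upwards [e] with y hy
        rw [hy]
      have e2 : (fun y => fderiv ℝ V y I) =ᶠ[𝓝 (φ w)] fun y => fderiv ℝ V0 y I := by
        filter_upwards [e] with y hy
        rw [hy]
      show fderiv ℝ (fun y => fderiv ℝ V y 1) (φ w) 1 + fderiv ℝ (fun y => fderiv ℝ V y I) (φ w) I
        = fderiv ℝ (fun y => fderiv ℝ V0 y 1) (φ w) 1 + fderiv ℝ (fun y => fderiv ℝ V0 y I) (φ w) I
      rw [e1.fderiv_eq, e2.fderiv_eq]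
    rw [hlap]
    have hs := lap_sum U hU (N + 1) c (fun k x => x ^ k) H (fun k => differentiable_pow k) hHdiff
      (φ w) (mem_image_of_mem _ hwr)
    rw [show lap V0 (φ w) = _ from hs, Finset.sum_range_succ']
    have hz : 4 * (c 0 * (deriv (fun x : ℂ => x ^ 0) (conj (φ w)) * deriv (H 0) (φ w))) = 0 := by
      simp
    rw [hz, add_zero, Finset.mul_sum]
    refine Finset.sum_congr rfl fun k _ => ?_
    rw [hHder k w hwr]
    have hdp : deriv (fun x : ℂ => x ^ (k + 1)) (conj (φ w)) = ((k : ℂ) + 1) * conj (φ w) ^ k := by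
      rw [deriv_pow_field]
      push_cast
      simp
    rw [hdp]
    show 4 * ((-(a : ℂ)) ^ (k + 1) / ((k + 1).factorial : ℂ) * _) = _
    have hk1 : ((k : ℂ) + 1) ≠ 0 := by exact_mod_cast Nat.succ_ne_zero k
    have hk2 : (k.factorial : ℂ) ≠ 0 := by exact_mod_cast Nat.factorial_ne_zero k
    rw [Nat.factorial_succ]
    push_cast
    field_simp
    ring

end Pool.Agent.Y281.SC
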